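import Pool.Agent.Q283.EN.Stm2

/-!
# Project EN, job ABS: the index of the image of an endomorphism (helper123)
-/

set_option autoImplicit false

namespace Pool.Agent.Q123.EN

open Pool.Agent.Q283.EN

theorem absix : S_ABS := by
  intro G _ θ H H' hH hθ hT K0 M hK0 hKd hM hMd
  classical
  have hc : H' ≤ H'.comap θ := fun x hx => hθ x (hH hx)
  set θb : G ⧸ H' →+ G ⧸ H' := QuotientAddGroup.map H' H' θ hc with hθb
  have hθm : ∀ x : G, θb (QuotientAddGroup.mk x) = QuotientAddGroup.mk (θ x) := fun x => rfl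
  have hfin : Finite (G ⧸ H') := by
    obtain ⟨T, hT⟩ := hT
    refine Finite.of_surjective (fun t : T => (QuotientAddGroup.mk (t : G) : G ⧸ H')) ?_
    intro g
    obtain ⟨x, rfl⟩ := QuotientAddGroup.mk_surjective g
    obtain ⟨t, ht, hxt⟩ := hT x
    refine ⟨⟨t, ht⟩, ?_⟩
    rw [eq_comm, ← sub_eq_zero]
    change (QuotientAddGroup.mk (x - t) : G ⧸ H') = 0
    exact (QuotientAddGroup.eq_zero_iff _).2 hxt
  have hcard : Nat.card ((G ⧸ H') ⧸ θb.range) = Nat.card θb.ker := by
    have h1 := AddSubgroup.card_mul_index θb.range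
    have h2 := AddSubgroup.card_mul_index θb.ker
    have h3 : Nat.card ((G ⧸ H') ⧸ θb.ker) = Nat.card θb.range :=
      Nat.card_congr (QuotientAddGroup.quotientKerEquivRange θb).toEquiv
    have h4 : 0 < Nat.card θb.range := Nat.card_pos
    unfold AddSubgroup.index at h1 h2
    rw [h3] at h2
    have h5 : Nat.card θb.range * Nat.card ((G ⧸ H') ⧸ θb.range) = Nat.card θb.range * Nat.card θb.ker := by
      rw [h1, mul_comm, h2]
    exact Nat.eq_of_mul_eq_mul_left h4 h5
  have hle : K0.card * M.card ≤ Nat.card θb.ker := by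
    have hker : ∀ q : K0 × M, (QuotientAddGroup.mk ((q.1 : G) + q.2) : G ⧸ H') ∈ θb.ker := by
      rintro ⟨⟨x, hx⟩, ⟨m, hm⟩⟩
      rw [AddMonoidHom.mem_ker, hθm, map_add, hK0 x hx, zero_add]
      exact (QuotientAddGroup.eq_zero_iff _).2 (hθ m (hM m hm))
    have hinj : Function.Injective (fun q : K0 × M => (⟨_, hker q⟩ : θb.ker)) := by
      rintro ⟨⟨x, hx⟩, ⟨m, hm⟩⟩ ⟨⟨x', hx'⟩, ⟨m', hm'⟩⟩ h
      have h1 := congrArg Subtype.val h
      change (QuotientAddGroup.mk (x + m) : G ⧸ H') = QuotientAddGroup.mk (x' + m') at h1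
      rw [← sub_eq_zero] at h1
      change (QuotientAddGroup.mk ((x + m) - (x' + m')) : G ⧸ H') = 0 at h1
      have h2 := (QuotientAddGroup.eq_zero_iff _).1 h1
      have h3 : x = x' := by
        by_contra hne
        apply hKd x hx x' hx' hne
        have : x - x' = ((x + m) - (x' + m')) - (m - m') := by abel
        rw [this]
        exact H.sub_mem (hH h2) (H.sub_mem (hM m hm) (hM m' hm'))
      subst h3
      have h4 : m = m' := by
        by_contra hne
        apply hMd m hm m' hm' hne
        have : m - m' = (x + m) - (x + m') := by abel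
        rw [this]
        exact h2
      subst h4
      rfl
    have h5 := Nat.card_le_card_of_injective _ hinj
    rw [Nat.card_prod, Nat.card_eq_fintype_card, Nat.card_eq_fintype_card, Fintype.card_coe, Fintype.card_coe] at h5
    exact h5
  -- representatives
  set Γ := (G ⧸ H') ⧸ θb.range with hΓ
  let _ : Fintype Γ := Fintype.ofFinite Γ
  let π : G → Γ := fun x => QuotientAddGroup.mk (QuotientAddGroup.mk x : G ⧸ H')
  have hπ : Function.Surjective π := by
    intro g
    obtain ⟨y, rfl⟩ := QuotientAddGroup.mk_surjective g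
    obtain ⟨x, rfl⟩ := QuotientAddGroup.mk_surjective y
    exact ⟨x, rfl⟩
  let s : Γ → G := Function.surjInv hπ
  have hs : ∀ g, π (s g) = g := Function.surjInv_eq hπ
  refine ⟨Finset.univ.image s, ?_, ?_⟩
  · rw [Finset.card_image_of_injective _ (Function.injective_surjInv hπ), Finset.card_univ, ← Nat.card_eq_fintype_card,
      hcard]
    exact hle
  · intro x hx y hy hne z hz
    rw [Finset.mem_image] at hx hy
    obtain ⟨g, -, rfl⟩ := hx
    obtain ⟨g', -, rfl⟩ := hy
    apply hne
    congr 1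
    rw [← hs g, ← hs g']
    have h6 : s g = s g' + θ z := by rw [← hz]; abel
    rw [← sub_eq_zero]
    change (QuotientAddGroup.mk ((QuotientAddGroup.mk (s g) : G ⧸ H') - QuotientAddGroup.mk (s g')) : Γ) = 0
    rw [QuotientAddGroup.eq_zero_iff]
    refine ⟨QuotientAddGroup.mk z, ?_⟩
    rw [hθm, h6]
    change (QuotientAddGroup.mk (θ z) : G ⧸ H') = QuotientAddGroup.mk ((s g' + θ z) - s g')
    congr 1
    abel

end Pool.Agent.Q123.EN
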