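import Pool.Agent.Q283.EN.Stm2
import Pool.Agent.TH954.Expo

/-!
# Project EN, job LNA: the filtration of the local points (helper123; translation of the library TH954)
-/

set_option autoImplicit false
set_option linter.unusedSectionVars false

namespace Pool.Agent.Q123.EN

open NumberField IsDedekindDomain WeierstrassCurve
open Pool.Agent.TH954
open Pool.Agent.TH841.SH.D (Pt)
open Pool.Agent.Q283.EN

section norm

variable {F : Type} [Field F] [NumberField F] (v : HeightOneSpectrum (𝓞 F))

lemma norm_le_iff (x y : v.adicCompletion F) : ‖x‖ ≤ ‖y‖ ↔ Valued.v x ≤ Valued.v y :=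
  Valued.toNormedField.norm_le_iff

/-- the base of the norm -/
lemma exists_base : ∃ q : ℝ, 1 < q ∧ ∀ (m : ℤ) (x : v.adicCompletion F),
    (WithZero.exp m ≤ Valued.v x ↔ q ^ m ≤ ‖x‖) ∧ (Valued.v x ≤ WithZero.exp m ↔ ‖x‖ ≤ q ^ m) := by
  obtain ⟨π, hπ⟩ := v.valuation_exists_uniformizer F
  set p : v.adicCompletion F := algebraMap F (v.adicCompletion F) π with hp
  have hv : Valued.v p = WithZero.exp (-1 : ℤ) := by
    rw [← hπ]
    exact v.valuedAdicCompletion_eq_valuation' π
  have hv1 : ∀ m : ℤ, Valued.v (p⁻¹ ^ m) = WithZero.exp m := by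
    intro m
    rw [map_zpow₀, map_inv₀, hv, ← WithZero.exp_neg, neg_neg, ← WithZero.exp_zsmul, smul_eq_mul, mul_one]
  have hn : ∀ m : ℤ, ‖p⁻¹ ^ m‖ = ‖p⁻¹‖ ^ m := fun m => norm_zpow _ _
  refine ⟨‖p⁻¹‖, ?_, ?_⟩
  · have h1 : Valued.v (1 : v.adicCompletion F) < Valued.v p⁻¹ := by
      have h2 := hv1 1
      rw [zpow_one] at h2
      rw [h2, map_one, ← WithZero.exp_zero, WithZero.exp_lt_exp]
      norm_num
    have h3 : ¬ ‖p⁻¹‖ ≤ ‖(1 : v.adicCompletion F)‖ := by
      rw [norm_le_iff]
      exact not_le.mpr h1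
    rw [norm_one] at h3
    exact not_le.mp h3
  · intro m x
    rw [← hv1 m, ← norm_le_iff, ← norm_le_iff, hn]
    exact ⟨Iff.rfl, Iff.rfl⟩

end norm

/-- **JOB LNA** -/
theorem lna : S_LNA := by
  intro F _ _ v A B hA hB hD
  let dF : DecidableEq F := Classical.decEq _
  let dK : DecidableEq (v.adicCompletion F) := Classical.decEq _
  have hE : ShortInt (sh A B) := { h1 := rfl, h2 := rfl, h3 := rfl, ia := hA, ib := hB, disc := hD }
  have hW := hE.si v
  have h2 := two_ne (K := F) v
  obtain ⟨q, hq, hqv⟩ := exists_base v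
  have hq0 : 0 < q := by linarith
  have hR : ∀ n : ℕ, 1 ≤ n → 1 < q ^ (2 * (n : ℤ)) := by
    intro n hn
    exact one_lt_zpow₀ hq (by omega)
  have hHn : ∀ (n : ℕ) (P : Pt (sh A B) (v.adicCompletion F)), Hn v (sh A B) n P ↔
      Big (W := (sh A B).baseChange (v.adicCompletion F)) (q ^ (2 * (n : ℤ))) P := by
    intro n P
    constructor
    · intro h x y hxy e
      exact (hqv _ _).1.1 (h x y hxy e)
    · intro h x y hxy e
      exact (hqv _ _).1.2 (h x y hxy e)
  refine ⟨?_, ?_, ?_, ?_⟩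
  · intro n hn P Q hP hQ
    rw [hHn] at hP hQ ⊢
    exact hW.big_add h2 (hR n hn) hP hQ
  · intro n P hP
    rw [hHn] at hP ⊢
    exact hW.big_neg hP
  · intro n
    have hR1 := hR (n + 1) (by omega)
    obtain ⟨d, hd0, hd1, hd⟩ := hW.exists_near h2 (hE.disc_loc v) hR1
    obtain ⟨C, hC, cl, hcl⟩ := finite_classes v hd0
    have happ : ∀ (P : ((sh A B).baseChange (v.adicCompletion F)).toAffine.Point) (j : Fin 3), ∃ k : F,
        ‖nc P j - algebraMap F (v.adicCompletion F) k‖ < d := fun P j => exists_approx v hd0 _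
    choose k hk using happ
    have hk1 : ∀ P j, ‖algebraMap F (v.adicCompletion F) (k P j)‖ ≤ 1 := by
      intro P j
      have e : algebraMap F (v.adicCompletion F) (k P j) =
          nc P j - (nc P j - algebraMap F (v.adicCompletion F) (k P j)) := by ring
      rw [e]
      exact usub (nc_le_one hW _ j) ((hk P j).le.trans hd1)
    let c : ((sh A B).baseChange (v.adicCompletion F)).toAffine.Point → Fin 3 → C := fun P j => cl (k P j)
    classical
    let s : (Fin 3 → C) → ((sh A B).baseChange (v.adicCompletion F)).toAffine.Point := fun b =>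
      if h : ∃ P, c P = b then h.choose else 0
    have hs : ∀ P, c (s (c P)) = c P := by
      intro P
      have h : ∃ Q, c Q = c P := ⟨P, rfl⟩
      have e : s (c P) = h.choose := dif_pos h
      rw [e]
      exact h.choose_spec
    have hfin : (Set.range s).Finite := Set.finite_range s
    have cover : ∀ P : ((sh A B).baseChange (v.adicCompletion F)).toAffine.Point,
        ∃ Q ∈ hfin.toFinset, Big (W := (sh A B).baseChange (v.adicCompletion F)) (q ^ (2 * (n : ℤ))) (P - Q) := by
      intro P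
      refine ⟨s (c P), ?_, ?_⟩
      · rw [Set.Finite.mem_toFinset]
        exact ⟨_, rfl⟩
      · have hbig : Big (q ^ (2 * ((n + 1 : ℕ) : ℤ))) (P - s (c P)) := by
          apply hd
          intro j
          have e : nc P j - nc (s (c P)) j =
              (nc P j - algebraMap F (v.adicCompletion F) (k P j)) +
              (algebraMap F (v.adicCompletion F) (k P j - k (s (c P)) j)) -
              (nc (s (c P)) j - algebraMap F (v.adicCompletion F) (k (s (c P)) j)) := by
            rw [map_sub]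
            ring
          rw [e]
          refine usub_lt (uadd_lt (hk _ j) ?_) (hk _ j)
          exact hcl _ _ (hk1 _ j) (hk1 _ j) (congrFun (hs P) j).symm
        refine big_mono ?_ hbig
        exact zpow_le_zpow_right₀ hq.le (by push_cast; linarith)
    refine ⟨hfin.toFinset, fun P => ?_⟩
    obtain ⟨Q, hQ1, hQ2⟩ := cover P
    exact ⟨Q, hQ1, (hHn n _).2 hQ2⟩
  · intro n hn P Q x y x' y' h h' hP hQ hx hx' hPQ
    rw [hHn] at hPQ
    have hlt : (1 : ℝ) < q ^ (2 : ℤ) := one_lt_zpow₀ hq (by norm_num)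
    have hx1 : 1 < ‖x‖ := hlt.trans_le ((hqv _ _).1.1 hx)
    have hx1' : 1 < ‖x'‖ := hlt.trans_le ((hqv _ _).1.1 hx')
    have hb := hW.near_of_big h2 (hR n hn) hPQ 0
    rw [hP, hQ, nc_non hx1, nc_non hx1'] at hb
    have hb' : ‖x / y - x' / y'‖ ^ 2 * q ^ (2 * (n : ℤ)) ≤ 1 := hb
    refine (hqv _ _).2.2 ?_
    have e : q ^ (2 * (n : ℤ)) = (q ^ (n : ℤ)) ^ 2 := by
      rw [mul_comm, zpow_mul]
      norm_cast
    rw [e, ← mul_pow] at hb'
    have h3 : ‖x / y - x' / y'‖ * q ^ (n : ℤ) ≤ 1 := by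
      have hnn : 0 ≤ ‖x / y - x' / y'‖ * q ^ (n : ℤ) := by positivity
      nlinarith
    rw [zpow_neg, ← one_div, le_div_iff₀ (by positivity)]
    exact h3

end Pool.Agent.Q123.EN
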